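import Pool.Agent.W229.HD.Stm

set_option autoImplicit false

namespace Pool.Agent.W924.HD

open Pool.Agent.W229.HD

theorem nm_eq_norm (k : K3) :
    nm k = ‖(WithLp.toLp 2 (fun j => (k j : ℝ)) : EuclideanSpace ℝ (Fin 3))‖ := by
  rw [EuclideanSpace.norm_eq]
  unfold nm
  congr 1
  refine Finset.sum_congr rfl fun j _ => ?_
  simp

theorem nm_add_le (x y : K3) : nm (x + y) ≤ nm x + nm y := by
  rw [nm_eq_norm, nm_eq_norm, nm_eq_norm]
  refine le_trans (le_of_eq ?_) (norm_add_le _ _)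
  congr 1
  ext j
  simp

theorem one_le_nm (k : K3) (hk : k ≠ 0) : 1 ≤ nm k := by
  obtain ⟨j, hj⟩ : ∃ j, k j ≠ 0 := by
    by_contra h
    push Not at h
    exact hk (funext h)
  unfold nm
  rw [Real.one_le_sqrt]
  have h1 : (1 : ℝ) ≤ (k j : ℝ) ^ 2 := by
    have : 1 ≤ (k j) ^ 2 := by
      have := Int.one_le_abs hj
      nlinarith [sq_abs (k j)]
    exact_mod_cast this
  exact h1.trans (Finset.single_le_sum (f := fun j => (k j : ℝ) ^ 2) (fun i _ => sq_nonneg _)
    (Finset.mem_univ j))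

theorem T_TWO : S_TWO := by
  classical
  intro α A hα hA Λ s hM hcard s' p hp F hF
  have hp0 : p ≠ 0 := fun h => hM.zero s' (h ▸ hp)
  have hp1 : 1 ≤ nm p := one_le_nm p hp0
  have h1 : ∑ l ∈ F, nm l ^ (2 - 2 * α) ≤ (F.card : ℝ) := by
    have : ∀ l ∈ F, nm l ^ (2 - 2 * α) ≤ 1 := by
      intro l hl
      have hl0 : l ≠ 0 := by
        rintro rfl
        obtain ⟨_, h | h⟩ := hF 0 hl
        · exact hM.zero _ h.1
        · exact hM.zero _ h.1
      exact Real.rpow_le_one_of_one_le_of_nonpos (one_le_nm l hl0) (by linarith)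
    have := Finset.sum_le_card_nsmul F _ 1 this
    simpa using this
  have h2 : ∀ l ∈ F, l ∈ Λ s ∨ p + l ∈ Λ s := by
    intro l hl
    have hss : s = s' ∨ s = !s' := by
      cases s <;> cases s' <;> simp
    obtain ⟨_, h | h⟩ := hF l hl
    · rcases hss with rfl | rfl
      · exact Or.inr h.2
      · exact Or.inl h.1
    · rcases hss with rfl | rfl
      · exact Or.inl h.1
      · exact Or.inr h.2
  have h3 : ((F.filter (fun l => l ∈ Λ s)).card : ℝ) ≤ A * nm p ^ (2 * α) := by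
    apply hcard _ _ hp1
    intro k hk
    rw [Finset.mem_filter] at hk
    exact ⟨hk.2, (hF k hk.1).1⟩
  have h4 : ((F.filter (fun l => ¬ l ∈ Λ s)).card : ℝ) ≤ A * (2 * nm p) ^ (2 * α) := by
    have h5 : ((F.filter (fun l => ¬ l ∈ Λ s)).image (fun l => p + l)).card =
        (F.filter (fun l => ¬ l ∈ Λ s)).card :=
      Finset.card_image_of_injective _ (add_right_injective p)
    rw [← h5]
    apply hcard _ _ (by linarith)
    intro k hk
    rw [Finset.mem_image] at hk
    obtain ⟨l, hl, rfl⟩ := hk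
    rw [Finset.mem_filter] at hl
    refine ⟨(h2 l hl.1).resolve_left hl.2, ?_⟩
    have := nm_add_le p l
    have := (hF l hl.1).1
    linarith
  have h6 : (F.card : ℝ) = ((F.filter (fun l => l ∈ Λ s)).card : ℝ) +
      ((F.filter (fun l => ¬ l ∈ Λ s)).card : ℝ) := by
    rw [← Nat.cast_add, Finset.card_filter_add_card_filter_not]
  rw [Real.mul_rpow (by norm_num) (by linarith)] at h4
  calc ∑ l ∈ F, nm l ^ (2 - 2 * α) ≤ (F.card : ℝ) := h1
    _ ≤ A * nm p ^ (2 * α) + A * (2 ^ (2 * α) * nm p ^ (2 * α)) := by rw [h6]; linarith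
    _ = A * (1 + 2 ^ (2 * α)) * nm p ^ (2 * α) := by ring

end Pool.Agent.W924.HD
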